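import Mathlib
import Pool.Agent.H96.NK1

open Set
open scoped Manifold ContDiff Pointwise

namespace Pool.Agent.Results.MP_2aa58c_an.No

/-- the standing hypotheses on one system: `Γ` discrete and cocompact, translation by `τ` minimal,
`U` open with asymmetric closure -/
def Hyp {G : Type} [Group G] [TopologicalSpace G] (Γ : Subgroup G) (τ : G) (U : Set (G ⧸ Γ)) :
    Prop :=
  DiscreteTopology Γ ∧ CompactSpace (G ⧸ Γ) ∧
    (∀ x : G ⧸ Γ, Dense (range fun n : ℤ => τ ^ n • x)) ∧ IsOpen U ∧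
    ∀ g : G, g • closure U = closure U → ∀ x : G ⧸ Γ, g • x = x

open Pool.Agent.H96.NK

theorem result : ∃ (G : Type) (_ : Group G) (_ : TopologicalSpace G) (_ : IsTopologicalGroup G)
    (_ : PolishSpace G) (_ : ConnectedSpace G) (_ : ChartedSpace (ℝ × ℝ × ℝ) G)
    (_ : LieGroup 𝓘(ℝ, ℝ × ℝ × ℝ) ∞ G) (_ : Group.IsNilpotent G)
    (Γ₁ Γ₂ : Subgroup G) (τ₁ τ₂ : G) (U₁ : Set (G ⧸ Γ₁)) (U₂ : Set (G ⧸ Γ₂))
    (x₁ : G ⧸ Γ₁) (x₂ : G ⧸ Γ₂), Hyp Γ₁ τ₁ U₁ ∧ Hyp Γ₂ τ₂ U₂ ∧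
    {n : ℤ | τ₁ ^ n • x₁ ∈ U₁} = {n : ℤ | τ₂ ^ n • x₂ ∈ U₂} ∧
    ¬ ∃ φ : (G ⧸ Γ₁) ≃ₜ (G ⧸ Γ₂), (∀ x, φ (τ₁ • x) = τ₂ • φ x) ∧ φ x₁ = x₂ := by
  obtain ⟨τ, hτ⟩ := exTau
  have H : ∀ r : ℤ, 0 < r → Hyp (La r) τ (QuotientGroup.mk '' OO) := fun r hr =>
    ⟨inferInstance, La_cpt hr, hτ r hr, QuotientGroup.isOpenMap_coe _ OO_open, asym r⟩
  refine ⟨HH, inferInstance, inferInstance, inferInstance, inferInstance, inferInstance,
    inferInstance, inferInstance, inferInstance, La 2, La 1, τ, τ, _, _, (1 : HH), (1 : HH),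
    H 2 two_pos, H 1 one_pos, ?_, ?_⟩
  · ext n
    exact (Set.ext_iff.1 (OO_pre 2) (τ ^ n * 1)).trans (Set.ext_iff.1 (OO_pre 1) (τ ^ n * 1)).symm
  · rintro ⟨φ, h1, h2⟩
    have : IsClosed (La 1 : Set HH) := Subgroup.isClosed_of_discrete
    have hn : ∀ (n : ℤ) x, φ (τ ^ n • x) = τ ^ n • φ x := by
      intro n
      induction n using Int.induction_on with
      | zero => simp
      | succ n ih => intro x; rw [zpow_add_one, mul_smul, mul_smul, ih, h1]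
      | pred n ih =>
        intro x
        rw [zpow_sub_one, mul_smul, mul_smul, ih, ← inv_smul_smul τ (φ (τ⁻¹ • x)), ← h1,
          smul_inv_smul]
    let π : HH ⧸ La 2 → HH ⧸ La 1 := Subgroup.quotientMapOfLE (La_le 2)
    have hπ : Continuous π := continuous_quot_lift _ QuotientGroup.continuous_mk
    have e : ⇑φ = π := Continuous.ext_on (hτ 2 two_pos (1 : HH)) φ.continuous hπ (by
      rintro _ ⟨n, rfl⟩
      simp only [hn, h2]; rfl)
    have : φ (mk 1 0 0 : HH) = φ (1 : HH) := by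
      rw [e]
      exact (QuotientGroup.eq (s := La 1)).2 ⟨-1, 0, 0, by simp [inv_mk]⟩
    obtain ⟨a, b, c, h⟩ := QuotientGroup.eq.1 (φ.injective this)
    simp only [mul_one, inv_mk, mk_inj] at h
    have : (-1 : ℤ) = 2 * a := by exact_mod_cast h.1
    omega

end Pool.Agent.Results.MP_2aa58c_an.No
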